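import Pool.Agent.Helper75.PX.Stmts

set_option autoImplicit false

universe u

namespace Pool.Agent.Helper75.PX

theorem b3_unit {K A : Type*} [Field K] [Ring A] [Algebra K A] {i : A} {c : K}
    (hi : i * i * i = algebraMap K A c) (c0 : c ≠ 0) : IsUnit i := by
  rw [isUnit_iff_exists]
  refine ⟨c⁻¹ • (i * i), ?_, ?_⟩
  · rw [mul_smul_comm, ← mul_assoc, hi, Algebra.smul_def, ← map_mul, inv_mul_cancel₀ c0, map_one]
  · rw [smul_mul_assoc, hi, Algebra.smul_def, ← map_mul, inv_mul_cancel₀ c0, map_one]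

theorem b3_ji {K A : Type*} [Field K] [Ring A] [Algebra K A] {ζ : K} {i j : A}
    (hij : j * i = ζ • (i * j)) (m : ℕ) : j * i ^ m = ζ ^ m • (i ^ m * j) := by
  induction m with
  | zero => simp
  | succ m ih =>
    calc j * i ^ (m + 1) = (j * i ^ m) * i := by rw [pow_succ, mul_assoc]
      _ = ζ ^ m • (i ^ m * (j * i)) := by rw [ih, smul_mul_assoc, mul_assoc]
      _ = ζ ^ (m + 1) • (i ^ (m + 1) * j) := by
        rw [hij, mul_smul_comm, smul_smul, ← pow_succ, pow_succ i, mul_assoc]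

theorem b3_ij {K A : Type*} [Field K] [Ring A] [Algebra K A] {ζ : K} {i j : A}
    (hij : j * i = ζ • (i * j)) (n : ℕ) : j ^ n * i = ζ ^ n • (i * j ^ n) := by
  induction n with
  | zero => simp
  | succ n ih =>
    calc j ^ (n + 1) * i = j * (j ^ n * i) := by rw [pow_succ', mul_assoc]
      _ = ζ ^ n • ((j * i) * j ^ n) := by rw [ih, mul_smul_comm, mul_assoc]
      _ = ζ ^ (n + 1) • (i * j ^ (n + 1)) := by
        rw [hij, smul_mul_assoc, smul_smul, ← pow_succ, pow_succ' j, mul_assoc]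

theorem b3_sep {K A : Type*} [Field K] [Ring A] [Algebra K A] {ζ : K} {u x y z : A}
    (h3 : (3 : K) ≠ 0) (hζ : ζ ^ 2 + ζ + 1 = 0) (hu : IsUnit u)
    (hx : u * x = x * u) (hy : u * y = ζ • (y * u)) (hz : u * z = ζ ^ 2 • (z * u))
    (hs : x + y + z = 0) : x = 0 ∧ y = 0 ∧ z = 0 := by
  have hz3 : ζ ^ 3 = 1 := by linear_combination (ζ - 1) * hζ
  have key : ∀ p q : K, x + p • y + q • z = 0 → x + (p * ζ) • y + (q * ζ ^ 2) • z = 0 := by
    intro p q h
    have h1 : (x + (p * ζ) • y + (q * ζ ^ 2) • z) * u = 0 := by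
      have h2 : u * (x + p • y + q • z) = 0 := by rw [h, mul_zero]
      rw [mul_add, mul_add, mul_smul_comm, mul_smul_comm, hx, hy, hz, smul_smul, smul_smul] at h2
      rw [add_mul, add_mul, smul_mul_assoc, smul_mul_assoc]
      exact h2
    exact hu.mul_left_eq_zero.mp h1
  have s1 := key 1 1 (by rw [one_smul, one_smul]; exact hs)
  have s2 := key _ _ s1
  have e1 : (1 : K) * ζ * ζ = ζ ^ 2 := by ring
  have e2 : (1 : K) * ζ ^ 2 * ζ ^ 2 = ζ := by linear_combination ζ * hz3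
  rw [e1, e2] at s2
  rw [one_mul, one_mul] at s1
  have hz2 : ζ ^ 2 = -ζ - 1 := by linear_combination hζ
  rw [hz2] at s1 s2
  have x0 : x = 0 := by
    have e : (3 : K) • x = (x + y + z) + (x + ζ • y + (-ζ - 1) • z) +
        (x + (-ζ - 1) • y + ζ • z) := by module
    rw [hs, s1, s2, add_zero, add_zero] at e
    rcases smul_eq_zero.mp e with h | h
    · exact absurd h h3
    · exact h
  subst x0
  have y0 : y = 0 := by
    have e : (2 * ζ + 1) • y = (0 + ζ • y + (-ζ - 1) • z) + (ζ + 1) • (0 + y + z) := by module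
    rw [hs, s1, smul_zero, add_zero] at e
    rcases smul_eq_zero.mp e with h | h
    · exact absurd (by linear_combination 4 * hζ - (2 * ζ + 1) * h : (3 : K) = 0) h3
    · exact h
  subst y0
  refine ⟨rfl, rfl, ?_⟩
  rw [zero_add, zero_add] at hs
  exact hs

theorem st_B3 : ST_B3.{u} := by
  intro K A _ _ _ _ ζ i j c d h3 hζ h
  have ui : IsUnit i := b3_unit h.hi h.c0
  have uj : IsUnit j := b3_unit h.hj h.d0
  have hζ3 : ζ ^ 3 = 1 := by linear_combination (ζ - 1) * hζ
  rw [Fintype.linearIndependent_iff]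
  intro g hg
  have hJ : ∀ m : Fin 3, j * (∑ n : Fin 3, g (m, n) • e3 i j (m, n)) =
      ζ ^ (m : ℕ) • ((∑ n : Fin 3, g (m, n) • e3 i j (m, n)) * j) := by
    intro m
    rw [Finset.mul_sum, Finset.sum_mul, Finset.smul_sum]
    refine Finset.sum_congr rfl fun n _ => ?_
    unfold e3
    rw [mul_smul_comm, smul_mul_assoc, smul_comm (ζ ^ (m : ℕ)), ← mul_assoc, b3_ji h.hij,
      smul_mul_assoc, mul_assoc (i ^ (m : ℕ)), mul_assoc (i ^ (m : ℕ)), ← pow_succ, ← pow_succ']
  rw [Fintype.sum_prod_type, Fin.sum_univ_three] at hg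
  have hT := b3_sep h3 hζ uj (by simpa using hJ 0) (by simpa using hJ 1) (by simpa using hJ 2) hg
  have hT' : ∀ m : Fin 3, (∑ n : Fin 3, g (m, n) • e3 i j (m, n)) = 0 := by
    intro m
    fin_cases m
    · exact hT.1
    · exact hT.2.1
    · exact hT.2.2
  have hI : ∀ (m n : Fin 3), ζ ^ (n : ℕ) • (i * (g (m, n) • e3 i j (m, n))) =
      (g (m, n) • e3 i j (m, n)) * i := by
    intro m n
    unfold e3
    rw [mul_smul_comm, smul_mul_assoc, mul_assoc (i ^ (m : ℕ)), b3_ij h.hij, mul_smul_comm,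
      smul_comm (ζ ^ (n : ℕ)), ← mul_assoc, ← mul_assoc, ← pow_succ, ← pow_succ']
  have hS : ∀ m : Fin 3, g (m, 0) • e3 i j (m, 0) = 0 ∧ g (m, 2) • e3 i j (m, 2) = 0 ∧
      g (m, 1) • e3 i j (m, 1) = 0 := by
    intro m
    have h0 := hI m 0
    have h1 := hI m 1
    have h2 := hI m 2
    have hs := hT' m
    rw [Fin.sum_univ_three] at hs
    refine b3_sep h3 hζ ui ?_ ?_ ?_ ?_
    · simpa using h0
    · rw [← h2, smul_smul]
      have e : ζ * ζ ^ ((2 : Fin 3) : ℕ) = 1 := by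
        have : ((2 : Fin 3) : ℕ) = 2 := rfl
        rw [this, ← pow_succ', hζ3]
      rw [e, one_smul]
    · rw [← h1, smul_smul]
      have e : ζ ^ 2 * ζ ^ ((1 : Fin 3) : ℕ) = 1 := by
        have : ((1 : Fin 3) : ℕ) = 1 := rfl
        rw [this, ← pow_add, hζ3]
      rw [e, one_smul]
    · rw [add_right_comm]
      exact hs
  have hU : ∀ s : Fin 3 × Fin 3, g s • e3 i j s = 0 → g s = 0 := by
    intro s hs
    rcases smul_eq_zero.mp hs with h' | h'
    · exact h'
    · exact absurd h' ((ui.pow _).mul (uj.pow _)).ne_zero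
  rintro ⟨m, n⟩
  apply hU
  fin_cases n
  · exact (hS m).1
  · exact (hS m).2.2
  · exact (hS m).2.1

end Pool.Agent.Helper75.PX
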