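import Pool.Agent.Helper75.PX.Stmts2

set_option autoImplicit false

universe u

namespace Pool.Agent.Helper75.PX

theorem st_MCS : ST_MCS.{u} := by
  intro K X _ _ _ _ _ m hm
  have h1 : Nonempty (Fin m) := ⟨⟨0, hm⟩⟩
  exact ⟨inferInstance, inferInstance⟩

end Pool.Agent.Helper75.PX
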