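import Pool.Agent.Helper75.PX.Stmts4
import Pool.Agent.Helper68.PX.Q4

/-!
# Quaternion algebras in characteristic two: generators
-/

set_option autoImplicit false

universe u

open Module TensorProduct Polynomial

namespace Pool.Agent.Helper75.PX

theorem Q2_two {K D : Type*} [Field K] [Ring D] [Algebra K D] (h2 : (2 : K) = 0) (x : D) :
    x + x = 0 := by
  have h : (2 : D) = algebraMap K D 2 := (map_ofNat (algebraMap K D) 2).symm
  rw [← two_mul, h, h2, map_zero, zero_mul]

theorem Q2_neg {K D : Type*} [Field K] [Ring D] [Algebra K D] (h2 : (2 : K) = 0) (x : D) :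
    -x = x := by
  have h := Q2_two h2 x
  exact neg_eq_of_add_eq_zero_left h

theorem Q2_nc (K D : Type u) [Field K] [DivisionRing D] [Algebra K D] [Algebra.IsCentral K D]
    (x : D) (hx : ∀ k : K, x ≠ algebraMap K D k) : ∃ y : D, y * x ≠ x * y := by
  by_contra hcon
  push Not at hcon
  have hmem : x ∈ Subalgebra.center K D := by
    rw [Subalgebra.mem_center_iff]
    exact hcon
  have hc := Algebra.IsCentral.out (K := K) (D := D) hmem
  rw [Algebra.mem_bot] at hc
  obtain ⟨k, hk⟩ := hc
  exact hx k hk.symm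

theorem Q2_ex (K D : Type u) [Field K] [DivisionRing D] [Algebra K D] [Algebra.IsCentral K D]
    (h2 : (2 : K) = 0) (hf : finrank K D = 4)
    (hr : ∀ x : D, ∃ c1 c0 : K, x * x + c1 • x + algebraMap K D c0 = 0) :
    ∃ (x : D) (c1 c0 : K), (∀ k : K, x ≠ algebraMap K D k) ∧ c1 ≠ 0 ∧
      x * x + c1 • x + algebraMap K D c0 = 0 := by
  have hcomm : ∀ (k : K) (d : D), algebraMap K D k * d = d * algebraMap K D k :=
    fun k d => Algebra.commutes k d
  have hex : ∃ x : D, ∀ k : K, x ≠ algebraMap K D k := by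
    by_contra hcon
    push Not at hcon
    have hs : Function.Surjective (Algebra.linearMap K D) := fun x => by
      obtain ⟨k, hk⟩ := hcon x
      exact ⟨k, hk.symm⟩
    have := LinearMap.finrank_range_le (Algebra.linearMap K D)
    rw [LinearMap.range_eq_top.2 hs, finrank_top, hf, finrank_self] at this
    omega
  obtain ⟨x, hx⟩ := hex
  obtain ⟨c1, c0, hc⟩ := hr x
  by_cases hc1 : c1 = 0
  swap
  · exact ⟨x, c1, c0, hx, hc1, hc⟩
  obtain ⟨y, hy⟩ := Q2_nc K D x hx
  obtain ⟨d1, d0, hd⟩ := hr y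
  by_cases hd1 : d1 = 0
  swap
  · refine ⟨y, d1, d0, ?_, hd1, hd⟩
    intro k hk
    apply hy
    rw [hk, hcomm]
  obtain ⟨e1, e0, he⟩ := hr (x + y)
  by_cases he1 : e1 = 0
  swap
  · refine ⟨x + y, e1, e0, ?_, he1, he⟩
    intro k hk
    apply hy
    have h1 : (x + y) * x = x * (x + y) := by rw [hk, hcomm]
    rw [add_mul, mul_add] at h1
    exact add_left_cancel h1
  rw [hc1, zero_smul, add_zero] at hc
  rw [hd1, zero_smul, add_zero] at hd
  rw [he1, zero_smul, add_zero] at he
  have hxx : x * x = algebraMap K D (-c0) := by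
    rw [map_neg]; exact eq_neg_of_add_eq_zero_left hc
  have hyy : y * y = algebraMap K D (-d0) := by
    rw [map_neg]; exact eq_neg_of_add_eq_zero_left hd
  have hss : (x + y) * (x + y) = algebraMap K D (-e0) := by
    rw [map_neg]; exact eq_neg_of_add_eq_zero_left he
  have hw : x * y + y * x = algebraMap K D (-e0 + c0 + d0) := by
    have h1 : x * y + y * x = (x + y) * (x + y) - x * x - y * y := by noncomm_ring
    rw [h1, hxx, hyy, hss, ← map_sub, ← map_sub]
    congr 1
    ring
  obtain ⟨w, hwd⟩ : ∃ w : K, w = -e0 + c0 + d0 := ⟨_, rfl⟩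
  rw [← hwd] at hw
  have hw0 : w ≠ 0 := by
    intro h
    rw [h, map_zero] at hw
    apply hy
    have h1 : y * x = -(x * y) := by
      rw [add_comm] at hw
      exact eq_neg_of_add_eq_zero_left hw
    rw [h1]
    exact Q2_neg h2 _
  have hyx : y * x = algebraMap K D w - x * y := by rw [← hw]; abel
  refine ⟨x * y, -w, c0 * d0, ?_, neg_ne_zero.2 hw0, ?_⟩
  · intro k hk
    have hx0 : x ≠ 0 := by
      intro h
      exact hx 0 (by rw [h, map_zero])
    apply hy
    have h1 : y = x⁻¹ * algebraMap K D k := by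
      rw [← hk, ← mul_assoc, inv_mul_cancel₀ hx0, one_mul]
    rw [h1, mul_assoc, hcomm, ← mul_assoc, inv_mul_cancel₀ hx0, one_mul, ← mul_assoc,
      mul_inv_cancel₀ hx0, one_mul]
  · have h1 : x * y * (x * y) = algebraMap K D w * (x * y) - (x * x) * (y * y) := by
      calc x * y * (x * y) = x * (y * x) * y := by noncomm_ring
        _ = x * (algebraMap K D w - x * y) * y := by rw [hyx]
        _ = x * algebraMap K D w * y - (x * x) * (y * y) := by noncomm_ring
        _ = algebraMap K D w * (x * y) - (x * x) * (y * y) := by rw [← hcomm, mul_assoc]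
    rw [h1, hxx, hyy, ← map_mul, Algebra.smul_def, map_neg]
    have h3 : algebraMap K D (-c0 * -d0) = algebraMap K D (c0 * d0) := by
      congr 1; ring
    rw [h3]
    noncomm_ring

theorem Q2_div (K D : Type u) [Field K] [DivisionRing D] [Algebra K D] [Algebra.IsCentral K D]
    (h2 : (2 : K) = 0) (hf : finrank K D = 4)
    (hr : ∀ x : D, ∃ c1 c0 : K, x * x + c1 • x + algebraMap K D c0 = 0) :
    ∃ (i j : D) (a b : K), D2c i j a b := by
  have hcomm : ∀ (k : K) (d : D), algebraMap K D k * d = d * algebraMap K D k :=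
    fun k d => Algebra.commutes k d
  obtain ⟨x, c1, c0, hx, hc1, hc⟩ := Q2_ex K D h2 hf hr
  obtain ⟨i, hi⟩ : ∃ i : D, i = c1⁻¹ • x := ⟨_, rfl⟩
  obtain ⟨a, ha⟩ : ∃ a : K, a = c1⁻¹ * c1⁻¹ * c0 := ⟨_, rfl⟩
  have hxi : x = c1 • i := by rw [hi, smul_smul, mul_inv_cancel₀ hc1, one_smul]
  have hii : i * i = i + algebraMap K D a := by
    have h3 : x * x = -(c1 • x) - algebraMap K D c0 := by
      rw [add_assoc, add_eq_zero_iff_eq_neg] at hc
      rw [hc]; abel
    have h4 : i * i = (c1⁻¹ * c1⁻¹) • (x * x) := by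
      rw [hi, smul_mul_smul_comm]
    have h5 : (c1⁻¹ * c1⁻¹) • (c1 • x) = i := by
      rw [smul_smul, hi]
      congr 1
      field_simp
    have h6 : (c1⁻¹ * c1⁻¹) • algebraMap K D c0 = algebraMap K D a := by
      rw [ha, Algebra.algebraMap_eq_smul_one c0, smul_smul, Algebra.algebraMap_eq_smul_one]
    rw [h4, h3, smul_sub, smul_neg, h5, h6, Q2_neg h2 i, sub_eq_add_neg, Q2_neg h2]
  have hik : ∀ k : K, i ≠ algebraMap K D k := by
    intro k hk
    apply hx (c1 * k)
    rw [hxi, hk, map_mul, Algebra.smul_def]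
  obtain ⟨y, hy⟩ := Q2_nc K D i hik
  obtain ⟨j, hj⟩ : ∃ j : D, j = i * y + y * i := ⟨_, rfl⟩
  have hj0 : j ≠ 0 := by
    intro h
    apply hy
    rw [hj, add_comm] at h
    rw [eq_neg_of_add_eq_zero_left h]
    exact Q2_neg h2 _
  have hji : j * i = (i + 1) * j := by
    have e1 : j * i = i * y * i + y * i + y * algebraMap K D a := by
      rw [hj, add_mul, mul_assoc y i i, hii, mul_add]
      abel
    have e2 : (i + 1) * j = i * y * i + y * i + y * algebraMap K D a + (i * y + i * y) := by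
      have e3 : (i + 1) * j = (i * i) * y + i * y * i + i * y + y * i := by
        rw [hj]; noncomm_ring
      rw [e3, hii, add_mul, hcomm]
      abel
    rw [e1, e2, Q2_two h2, add_zero]
  have hji' : j * i = i * j + j := by rw [hji, add_mul, one_mul]
  obtain ⟨d1, d0, hd⟩ := hr j
  have hconj : (j * j) * i = i * (j * j) := by
    calc (j * j) * i = j * (j * i) := mul_assoc _ _ _
      _ = (j * i) * j + j * j := by rw [hji', mul_add, ← mul_assoc, hji']
      _ = i * (j * j) + (j * j + j * j) := by rw [hji', add_mul, mul_assoc, add_assoc]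
      _ = i * (j * j) := by rw [Q2_two h2, add_zero]
  have hd1 : d1 = 0 := by
    have e1 : (j * j + d1 • j + algebraMap K D d0) * i = 0 := by rw [hd, zero_mul]
    have e2 : i * (j * j + d1 • j + algebraMap K D d0) = 0 := by rw [hd, mul_zero]
    have e3 : d1 • j = 0 := by
      have e4 : (j * j + d1 • j + algebraMap K D d0) * i -
          i * (j * j + d1 • j + algebraMap K D d0) = d1 • j := by
        rw [add_mul, add_mul, mul_add, mul_add, hconj, hcomm, smul_mul_assoc, mul_smul_comm,
          hji', smul_add]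
        abel
      rw [← e4, e1, e2, sub_zero]
    rcases smul_eq_zero.1 e3 with h | h
    · exact h
    · exact absurd h hj0
  have hjj : j * j = algebraMap K D (-d0) := by
    rw [hd1, zero_smul, add_zero] at hd
    rw [map_neg]
    exact eq_neg_of_add_eq_zero_left hd
  refine ⟨i, j, a, -d0, ⟨hii, hjj, hji, ?_⟩⟩
  intro h
  rw [h, map_zero] at hjj
  exact hj0 (mul_self_eq_zero.1 hjj)

theorem Q2_tr {K A B : Type*} [Field K] [Ring A] [Algebra K A] [Ring B] [Algebra K B]
    (e : B →ₐ[K] A) (h : ∃ (i j : B) (a b : K), D2c i j a b) :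
    ∃ (i j : A) (a b : K), D2c i j a b := by
  obtain ⟨i, j, a, b, h1, h2, h3, h4⟩ := h
  refine ⟨e i, e j, a, b, ?_, ?_, ?_, h4⟩
  · rw [← map_mul, h1, map_add, AlgHom.commutes]
  · rw [← map_mul, h2, AlgHom.commutes]
  · rw [← map_mul, h3, map_mul, map_add, map_one]

theorem st_Q2 (h1 : ST_WA.{u}) (h2 : ST_MPD.{u}) (_h3 : ST_MDV.{u}) : ST_Q2.{u} := by
  intro K Q _ _ _ _ _ hf h20
  have : FiniteDimensional K Q := Module.finite_of_finrank_pos (by rw [hf]; norm_num)
  obtain ⟨n, D, hD1, hD2, hn, hfd, hcen, hfr, ⟨e⟩⟩ := h1 K Q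
  rw [hf] at hfr
  have hn2 : n = 1 ∨ n = 2 := by
    have : n ≤ 2 := by
      by_contra hcon
      push Not at hcon
      have h9 : 9 ≤ n ^ 2 := by nlinarith
      have hpos : 0 < finrank K D := by
        rcases Nat.eq_zero_or_pos (finrank K D) with h | h
        · rw [h, mul_zero] at hfr; omega
        · exact h
      nlinarith
    omega
  rcases hn2 with rfl | rfl
  · have hf4 : finrank K D = 4 := by omega
    refine Q2_tr (e.symm.toAlgHom.comp (Matrix.scalarAlgHom (Fin 1) K)) ?_
    refine Q2_div K D h20 hf4 fun x => Q4_rel x (Algebra.IsIntegral.isIntegral x) ?_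
    exact h2 K D 2 (by norm_num) (by rw [hf4]; norm_num) x
  · refine Q2_tr e.symm.toAlgHom ?_
    have h11 : (1 : D) + 1 = 0 := Q2_two h20 1
    refine ⟨!![1, 0; 0, 0], !![0, 1; 1, 0], 0, 1, ⟨?_, ?_, ?_, one_ne_zero⟩⟩
    · rw [map_zero, add_zero]
      simp only [Matrix.mul_fin_two, mul_one, mul_zero, add_zero, zero_mul]
    · rw [map_one, Matrix.one_fin_two]
      simp
    · rw [Matrix.one_fin_two]
      simp [h11]

end Pool.Agent.Helper75.PX
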